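import Pool.Agent.R855.Nil.Prod

/-!
# MP_b41bf9_ag: there need not be a maximal geometrically nilpotent subvariety

For every finite field `F` with `q` elements we exhibit a regular self-map `T` of affine `6`-space
over `F` such that no geometrically nilpotent subvariety `Y` is maximal in the sense of the
question.  The map is `T = t × t` with
`t(x,y,z) = (y-x) z^(q^2-q-1) * (x z^(q-1), y^q, z^q)`.
-/

namespace Pool.Agent.Results.MP_b41bf9_ag.NoMaximal

open MvPolynomial R855.Nil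

variable {F : Type} [Field F] [Finite F]

/-- Key step: if `J_k` lies in `T^(-a) (T^b Y)` then `Y` contains points whose second half is a
fixed triple `ρ` and whose first half is `(c, c^(q^(k+N)), 1)`, for almost all `c`. -/
theorem many_points {I : Ideal (MvPolynomial (Fin 6) F)} {k a b : ℕ} (hk : 1 ≤ k)
    (h : pts (JJ F (Nat.card F) k) ⊆ (act (TT F (Nat.card F)))^[a] ⁻¹'
      ((act (TT F (Nat.card F)))^[b] '' pts I)) :
    ∃ (N : ℕ) (ρ : AlgebraicClosure F × AlgebraicClosure F × AlgebraicClosure F),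
      {c : AlgebraicClosure F | join (c, c ^ (Nat.card F) ^ (k + N), 1) ρ ∉ pts I}.Finite := by
  have hq : 2 ≤ Nat.card F := two_le_card
  have hinj : ∀ (n : ℕ) (x y : AlgebraicClosure F),
      x ^ Nat.card F ^ n = y ^ Nat.card F ^ n → x = y := fun n x y => qpow_inj n
  obtain ⟨q, hqq⟩ : ∃ q, q = Nat.card F := ⟨_, rfl⟩
  rw [← hqq] at h hq hinj ⊢
  obtain ⟨c', hc'⟩ := exists_good (F := F) (a + 1)
  rw [← hqq] at hc'
  -- the second half
  have hp'z : ((step q)^[a] (pt c' (c' ^ q) 1)).2.2 ≠ 0 := by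
    rw [iter_pt hq]
    refine zs_ne one_ne_zero a fun i hi => ?_
    have := hc' (i + 1) (by omega) (by omega)
    rwa [pow_succ', pow_mul] at this
  have hp'mem : (pt c' (c' ^ q) 1).2.1 * (pt c' (c' ^ q) 1).2.2 ^ (q - 1)
      = (pt c' (c' ^ q) 1).1 ^ q := by
    simp [pt]
  -- points of `J_k` with good first half
  have hstep : ∀ (c l : AlgebraicClosure F), l ≠ 0 → (∀ i < a, c ^ q ^ (k + i) ≠ c) →
      b ≤ a ∧ join ((step q)^[a - b] (pt c (c ^ q ^ k) l))
        ((step q)^[a - b] (pt c' (c' ^ q) 1)) ∈ pts I := by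
    intro c l hl hgood
    have hpz : ((step q)^[a] (pt c (c ^ q ^ k) l)).2.2 ≠ 0 := by
      rw [iter_pt hq]
      refine zs_ne hl a fun i hi => ?_
      rw [← pow_mul, ← pow_add]
      exact hgood i hi
    have hmem : join (pt c (c ^ q ^ k) l) (pt c' (c' ^ q) 1) ∈ pts (JJ F q k) :=
      mem_JJ.2 ⟨pt_mem hq c l, hp'mem⟩
    obtain ⟨y, hy, hyeq⟩ := h hmem
    obtain ⟨y1, y2, rfl⟩ := exists_join y
    rw [iter_TT, iter_TT] at hyeq
    obtain ⟨e1, e2⟩ := join_inj hyeq
    have hba : b ≤ a := by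
      by_contra hlt
      push Not at hlt
      obtain ⟨n, hn⟩ : ∃ n, b = a + (n + 1) := ⟨b - a - 1, by omega⟩
      rw [hn, Function.iterate_add_apply] at e2
      have e3 := iter_inj hq hinj a hp'z e2.symm
      rw [Function.iterate_succ_apply'] at e3
      exact not_image hq hinj c' _ e3.symm
    refine ⟨hba, ?_⟩
    obtain ⟨N, hN⟩ : ∃ N, a = b + N := ⟨a - b, by omega⟩
    have hab : a - b = N := by omega
    rw [hab]
    rw [hN, Function.iterate_add_apply] at e1 e2 hpz hp'z
    rw [iter_inj hq hinj b hpz e1.symm, iter_inj hq hinj b hp'z e2.symm]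
    exact hy
  refine ⟨a - b, (step q)^[a - b] (pt c' (c' ^ q) 1), ?_⟩
  refine Set.Finite.subset (finite_bad (F := F) (k + a)) ?_
  intro c hc
  simp only [Set.mem_ofPred_eq] at hc ⊢
  rw [← hqq]
  by_contra hno
  push Not at hno
  have hgood : ∀ i < a, c ^ q ^ (k + i) ≠ c := fun i hi => hno (k + i) (by omega) (by omega)
  have hw : zs q c (c ^ q ^ k) 1 (a - b) ≠ 0 := by
    refine zs_ne one_ne_zero _ fun i hi => ?_
    rw [← pow_mul, ← pow_add]
    exact hgood i (by omega)
  obtain ⟨l, hl⟩ := IsAlgClosed.exists_pow_nat_eq ((zs q c (c ^ q ^ k) 1 (a - b))⁻¹)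
    (show 0 < (q ^ 2) ^ (a - b) by positivity)
  have hl0 : l ≠ 0 := by
    rintro rfl
    rw [zero_pow (by positivity)] at hl
    exact inv_ne_zero hw hl.symm
  obtain ⟨hba, hmem⟩ := hstep c l hl0 hgood
  rw [iter_pt hq c, zs_scale, hl, inv_mul_cancel₀ hw, ← pow_mul, ← pow_add] at hmem
  apply hc
  have e : pt c (c ^ q ^ (k + (a - b))) 1 = (c, c ^ q ^ (k + (a - b)), 1) := by
    simp [pt]
  rw [← e]
  exact hmem

/-- If the points `(x, y, 1, ρ)` all lie on `Y` then `Y` is not geometrically nilpotent. -/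
theorem not_nilpotent {I : Ideal (MvPolynomial (Fin 6) F)}
    {ρ : AlgebraicClosure F × AlgebraicClosure F × AlgebraicClosure F}
    (h : ∀ x y : AlgebraicClosure F, join (x, y, 1) ρ ∈ pts I) :
    ¬ GeomNilpotent (TT F (Nat.card F)) I := by
  intro hI
  have hq : 2 ≤ Nat.card F := two_le_card
  have hinj : ∀ (n : ℕ) (x y : AlgebraicClosure F),
      x ^ Nat.card F ^ n = y ^ Nat.card F ^ n → x = y := fun n x y => qpow_inj n
  obtain ⟨e, he⟩ := exists_good (F := F) 1
  have he1 := he 1 (le_refl 1) (le_refl 1)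
  obtain ⟨q, hqq⟩ : ∃ q, q = Nat.card F := ⟨_, rfl⟩
  rw [← hqq] at he1 hq hinj hI
  obtain ⟨𝔭, h𝔭, hy⟩ := exists_component I (h 0 e)
  obtain ⟨P, hP, hall⟩ := hI 𝔭 h𝔭
  obtain ⟨n, -, hn⟩ := hall _ hy
  have hfix : act (TT F q) ((act (TT F q))^[n] (join (0, e, 1) ρ))
      = (act (TT F q))^[n] (join (0, e, 1) ρ) := by
    rw [hn, hP]
  rw [iter_TT, act_TT] at hfix
  obtain ⟨h1, -⟩ := join_inj hfix
  have hpt : ((0 : AlgebraicClosure F), e, (1 : AlgebraicClosure F)) = pt 0 e 1 := by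
    simp [pt]
  rw [hpt, iter_pt hq, step_pt hq] at h1
  have hz : zs q 0 e 1 (n + 1) ≠ 0 := by
    refine zs_ne one_ne_zero _ fun i _ => ?_
    have he0 : e ≠ 0 := by
      rintro rfl
      apply he1
      rw [zero_pow (by positivity)]
    exact pow_ne_zero _ he0
  simp only [zs] at hz
  obtain ⟨-, h2, -⟩ := pt_inj hz h1
  apply he1
  rw [pow_one]
  apply hinj n
  rw [← pow_mul, mul_comm, pow_mul]
  exact h2

/-- Passing from almost all `(c, c^Q, 1, ρ)` to all `(x, y, 1, ρ)` when `Q` exceeds the degrees of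
the generators. -/
theorem all_points {I : Ideal (MvPolynomial (Fin 6) F)} {S : Finset (MvPolynomial (Fin 6) F)}
    (hS : Ideal.span (S : Set (MvPolynomial (Fin 6) F)) = I) {D N : ℕ}
    (hD : ∀ f ∈ S, f.totalDegree ≤ D)
    {ρ : AlgebraicClosure F × AlgebraicClosure F × AlgebraicClosure F}
    (hfin : {c : AlgebraicClosure F |
      join (c, c ^ (Nat.card F) ^ (D + 1 + N), 1) ρ ∉ pts I}.Finite)
    (x y : AlgebraicClosure F) : join (x, y, 1) ρ ∈ pts I := by
  have hQ : ∃ Q : ℕ, Q = Nat.card F ^ (D + 1 + N) := ⟨_, rfl⟩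
  obtain ⟨Q, hQ⟩ := hQ
  have hlt : D < Q := by
    have h1 : D + 1 + N < Nat.card F ^ (D + 1 + N) :=
      Nat.lt_pow_self (two_le_card (F := F))
    rw [← hQ] at h1
    omega
  rw [← hQ] at hfin
  rw [← hS]
  rw [pts]
  rw [zeroLocus_span, Set.mem_ofPred_eq]
  intro f hf
  have : Infinite (AlgebraicClosure F) := IsAlgClosed.instInfinite
  refine vanish_of_cofinite f Q (lt_of_le_of_lt (hD f hf) hlt) ρ (Set.Finite.subset hfin ?_) x y
  intro c hc
  simp only [Set.mem_ofPred_eq] at hc ⊢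
  intro hmem
  exact hc (hmem f (by rw [← hS]; exact Ideal.subset_span hf))

/-- **No maximal geometrically nilpotent subvariety.**  For every finite field `F` there is a
regular self-map `T` of affine `6`-space over `F` such that for every geometrically nilpotent
subvariety `Y = V(I)` there is a geometrically nilpotent subvariety `Z = V(J)` which for no
`k, m` is contained in `T^(-k) (T^m Y)` (on geometric points). -/
theorem result (F : Type) [Field F] [Finite F] :
    ∃ T : Fin 6 → MvPolynomial (Fin 6) F,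
      ∀ I : Ideal (MvPolynomial (Fin 6) F), GeomNilpotent T I →
        ∃ J : Ideal (MvPolynomial (Fin 6) F), GeomNilpotent T J ∧
          ∀ k m : ℕ, ¬ pts J ⊆ (act T)^[k] ⁻¹' ((act T)^[m] '' pts I) := by
  refine ⟨TT F (Nat.card F), fun I hI => ?_⟩
  obtain ⟨S, hS⟩ : I.FG := IsNoetherian.noetherian I
  obtain ⟨D, hD⟩ : ∃ D : ℕ, ∀ f ∈ S, f.totalDegree ≤ D :=
    ⟨S.sup totalDegree, fun f hf => Finset.le_sup hf⟩
  refine ⟨JJ F (Nat.card F) (D + 1), geomNilpotent_JJ (D + 1), fun a b hsub => ?_⟩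
  obtain ⟨N, ρ, hfin⟩ := many_points (by omega) hsub
  exact not_nilpotent (ρ := ρ) (all_points hS hD hfin) hI

end Pool.Agent.Results.MP_b41bf9_ag.NoMaximal
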